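import Pool.Agent.H20.T4.Stm

/-!
Row JG of project TM4 (MP_b6022c_nt): generic `j`.
-/

set_option autoImplicit false

namespace Pool.Agent.H98.T4

open Finset Pool.Agent.H9.TC Pool.Agent.H20.T4

theorem one_pair {kk J : ℕ} (p : Fin kk × Bool) (G : ℕ × (Fin kk × Bool → ℕ) → ℤ)
    (hG : ∀ j j' : ℕ × (Fin kk × Bool → ℕ), j.1 = j'.1 → (∀ x, x ≠ p → j.2 x = j'.2 x) →
      G j = 0 → G j' = 0 → j.2 p = j'.2 p) :
    ((Pool.Agent.H9.TC.box kk J).filter (fun j => G j = 0)).card * J ≤
      (Pool.Agent.H9.TC.box kk J).card := by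
  classical
  have h : (((Pool.Agent.H9.TC.box kk J).filter (fun j => G j = 0)) ×ˢ range J).card ≤
      (Pool.Agent.H9.TC.box kk J).card := by
    refine Finset.card_le_card_of_injOn (fun x => (x.1.1, Function.update x.1.2 p x.2)) ?_ ?_
    · rintro ⟨j, a⟩ hx
      rw [Finset.mem_coe, Finset.mem_product, Finset.mem_filter] at hx
      obtain ⟨⟨h1, _⟩, h2⟩ := hx
      rw [Finset.mem_coe]
      unfold Pool.Agent.H9.TC.box at h1 ⊢
      rw [Finset.mem_product, Fintype.mem_piFinset] at h1 ⊢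
      refine ⟨h1.1, fun x => ?_⟩
      by_cases hx : x = p
      · subst hx
        simpa using h2
      · have := h1.2 x
        simpa [Function.update_of_ne hx] using this
    · rintro ⟨j, a⟩ hx ⟨j', a'⟩ hx' he
      rw [Finset.mem_coe, Finset.mem_product, Finset.mem_filter] at hx hx'
      simp only [Prod.mk.injEq] at he
      obtain ⟨e1, e2⟩ := he
      have e3 : a = a' := by
        have := congrFun e2 p
        simpa using this
      have e4 : ∀ x, x ≠ p → j.2 x = j'.2 x := by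
        intro x hxp
        have := congrFun e2 x
        simpa [Function.update_of_ne hxp] using this
      have e5 := hG j j' e1 e4 hx.1.2 hx'.1.2
      have e6 : j = j' := by
        refine Prod.ext e1 (funext fun x => ?_)
        by_cases hxp : x = p
        · rw [hxp]; exact e5
        · exact e4 x hxp
      rw [e6, e3]
  rwa [Finset.card_product, Finset.card_range] at h

theorem psi_diff {kk : ℕ} (H : Fin kk → ℤ) (η : Fin kk → Bool) (l : Fin kk)
    (j j' : ℕ × (Fin kk × Bool → ℕ)) (h : ∀ x, x ≠ (l, η l) → j.2 x = j'.2 x) :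
    psi 0 H η j - psi 0 H η j' = ((j.2 (l, η l) : ℤ) - (j'.2 (l, η l) : ℤ)) * H l := by
  unfold psi
  have h1 : ∑ x, (j.2 (x, η x) : ℤ) * H x - ∑ x, (j'.2 (x, η x) : ℤ) * H x =
      ((j.2 (l, η l) : ℤ) - (j'.2 (l, η l) : ℤ)) * H l := by
    rw [← Finset.sum_sub_distrib, Finset.sum_eq_single l]
    · ring
    · intro b _ hb
      rw [h (b, η b) (fun e => hb (congrArg Prod.fst e))]
      ring
    · intro hl
      exact absurd (Finset.mem_univ l) hl
  linear_combination h1

theorem psi_same {kk : ℕ} (H : Fin kk → ℤ) (η η' : Fin kk → Bool) (l : Fin kk) (hl : η l ≠ η' l)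
    (j j' : ℕ × (Fin kk × Bool → ℕ)) (h : ∀ x, x ≠ (l, η l) → j.2 x = j'.2 x) :
    psi 0 H η' j = psi 0 H η' j' := by
  unfold psi
  have h1 : ∑ x, (j.2 (x, η' x) : ℤ) * H x = ∑ x, (j'.2 (x, η' x) : ℤ) * H x := by
    refine Finset.sum_congr rfl fun x _ => ?_
    rw [h (x, η' x) ?_]
    intro e
    have e1 : x = l := congrArg Prod.fst e
    have e2 : η' x = η l := congrArg Prod.snd e
    rw [e1] at e2
    exact hl e2.symm
  rw [h1]
  ring

theorem pair_bound (kk q1 c J : ℕ) (d : Fin q1 → ℤ) (H : Fin kk → ℕ) (hc : 1 ≤ c)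
    (hd : Function.Injective d) (hH : ∀ l, 1 ≤ H l) (x x' : Fin q1 × (Fin kk → Bool))
    (hx : x ≠ x') :
    ((Pool.Agent.H9.TC.box kk J).filter (fun j => del c (d x.1) (d x'.1)
      (psi 0 (fun l => (H l : ℤ)) x.2 j) (psi 0 (fun l => (H l : ℤ)) x'.2 j) = 0)).card * J ≤
      (Pool.Agent.H9.TC.box kk J).card := by
  by_cases hη : x.2 = x'.2
  · have hi : x.1 ≠ x'.1 := fun h => hx (Prod.ext h hη)
    have h0 : (Pool.Agent.H9.TC.box kk J).filter (fun j => del c (d x.1) (d x'.1)
      (psi 0 (fun l => (H l : ℤ)) x.2 j) (psi 0 (fun l => (H l : ℤ)) x'.2 j) = 0) = ∅ := by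
      rw [Finset.filter_eq_empty_iff]
      intro j _ h
      rw [hη] at h
      unfold del at h
      apply hi
      apply hd
      linarith
    rw [h0]
    simp
  · obtain ⟨l, hl⟩ := Function.ne_iff.1 hη
    refine one_pair (l, x.2 l) _ ?_
    intro j j' _ h h1 h2
    have e1 := psi_diff (fun l => (H l : ℤ)) x.2 l j j' h
    have e2 := psi_same (fun l => (H l : ℤ)) x.2 x'.2 l hl j j' h
    unfold del at h1 h2
    rw [e2] at h1
    have e3 : 12 * (c : ℤ) * (psi 0 (fun l => (H l : ℤ)) x.2 j -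
        psi 0 (fun l => (H l : ℤ)) x.2 j') = 0 := by linarith
    rw [e1] at e3
    have hc' : (c : ℤ) ≠ 0 := by
      have : c ≠ 0 := by omega
      exact_mod_cast this
    have hH' : (H l : ℤ) ≠ 0 := by
      have := hH l
      have : H l ≠ 0 := by omega
      exact_mod_cast this
    have e4 : ((j.2 (l, x.2 l) : ℤ) - (j'.2 (l, x.2 l) : ℤ)) * (H l : ℤ) = 0 := by
      rcases mul_eq_zero.1 e3 with h3 | h3
      · exfalso
        rcases mul_eq_zero.1 h3 with h4 | h4
        · norm_num at h4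
        · exact hc' h4
      · exact h3
    rcases mul_eq_zero.1 e4 with h3 | h3
    · have : (j.2 (l, x.2 l) : ℤ) = (j'.2 (l, x.2 l) : ℤ) := by linarith
      exact_mod_cast this
    · exact absurd h3 hH'

/-- (JG). -/
theorem jg : JGStmt := by
  intro kk q1 c J d H hc _ hd hH
  set B := Pool.Agent.H9.TC.box kk J with hB
  set bad : (Fin q1 × (Fin kk → Bool)) × (Fin q1 × (Fin kk → Bool)) →
      Finset (ℕ × (Fin kk × Bool → ℕ)) := fun y => B.filter (fun j => del c (d y.1.1) (d y.2.1)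
      (psi 0 (fun l => (H l : ℤ)) y.1.2 j) (psi 0 (fun l => (H l : ℤ)) y.2.2 j) = 0) with hbad
  set Y : Finset ((Fin q1 × (Fin kk → Bool)) × (Fin q1 × (Fin kk → Bool))) :=
    Finset.univ.filter (fun y => y.1 ≠ y.2) with hY
  have h1 : (B.filter (fun j => ∃ i i' : Fin q1, ∃ η η' : Fin kk → Bool,
      (i, η) ≠ (i', η') ∧ del c (d i) (d i') (psi 0 (fun l => (H l : ℤ)) η j)
        (psi 0 (fun l => (H l : ℤ)) η' j) = 0)).card ≤ ∑ y ∈ Y, (bad y).card := by
    refine le_trans (Finset.card_le_card ?_) Finset.card_biUnion_le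
    intro j hj
    rw [Finset.mem_filter] at hj
    obtain ⟨hj1, i, i', η, η', hne, h0⟩ := hj
    rw [Finset.mem_biUnion]
    refine ⟨((i, η), (i', η')), ?_, ?_⟩
    · rw [hY, Finset.mem_filter]
      exact ⟨Finset.mem_univ _, hne⟩
    · rw [hbad]
      exact Finset.mem_filter.2 ⟨hj1, h0⟩
  have h2 : (∑ y ∈ Y, (bad y).card) * J ≤ Y.card * B.card := by
    rw [Finset.sum_mul, ← smul_eq_mul, ← Finset.sum_const]
    refine Finset.sum_le_sum fun y hy => ?_
    rw [hY, Finset.mem_filter] at hy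
    exact pair_bound kk q1 c J d H hc hd hH y.1 y.2 hy.2
  have h3 : Y.card ≤ (q1 * 2 ^ kk) ^ 2 := by
    refine (Finset.card_filter_le _ _).trans (le_of_eq ?_)
    rw [Finset.card_univ]
    simp only [Fintype.card_prod, Fintype.card_fin, Fintype.card_fun, Fintype.card_bool]
    ring
  have h4 : (B.filter (fun j => ∃ i i' : Fin q1, ∃ η η' : Fin kk → Bool,
      (i, η) ≠ (i', η') ∧ del c (d i) (d i') (psi 0 (fun l => (H l : ℤ)) η j)
        (psi 0 (fun l => (H l : ℤ)) η' j) = 0)).card * J ≤ (q1 * 2 ^ kk) ^ 2 * B.card :=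
    (Nat.mul_le_mul_right J h1).trans (h2.trans (Nat.mul_le_mul_right _ h3))
  exact_mod_cast h4

end Pool.Agent.H98.T4
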